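import Mathlib

set_option autoImplicit false
open MeasureTheory Set Filter Topology
open scoped Pointwise

namespace Pool.Agent.Bl20

abbrev R2 : Type := ℝ × ℝ

lemma squeeze_deriv {f l u : ℝ → ℝ} {d : ℝ} (hl : HasDerivWithinAt l d (Set.Ici 0) 0)
    (hu : HasDerivWithinAt u d (Set.Ici 0) 0) (h0l : l 0 = f 0) (h0u : u 0 = f 0)
    (e0 : ℝ) (he0 : 0 < e0) (hle : ∀ e, 0 < e → e < e0 → l e ≤ f e)
    (hue : ∀ e, 0 < e → e < e0 → f e ≤ u e) :
    HasDerivWithinAt f d (Set.Ici 0) 0 := by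
  rw [hasDerivWithinAt_iff_tendsto_slope] at hl hu ⊢
  have hev : ∀ᶠ e in 𝓝[Set.Ici (0:ℝ) \ {0}] 0, 0 < e ∧ e < e0 := by
    filter_upwards [self_mem_nhdsWithin, mem_nhdsWithin_of_mem_nhds (Iio_mem_nhds he0)]
      with e he1 he2
    exact ⟨lt_of_le_of_ne he1.1 (fun h => he1.2 h.symm), he2⟩
  refine tendsto_of_tendsto_of_tendsto_of_le_of_le' hl hu ?_ ?_
  · filter_upwards [hev] with e he
    rw [slope_def_field, slope_def_field, h0l]
    have := hle e he.1 he.2
    have h1 : (0:ℝ) < e - 0 := by simpa using he.1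
    gcongr
  · filter_upwards [hev] with e he
    rw [slope_def_field, slope_def_field, h0u]
    have := hue e he.1 he.2
    have h1 : (0:ℝ) < e - 0 := by simpa using he.1
    gcongr

section G
variable {J : Type} (f : J → R2 →ₗ[ℝ] ℝ)

def Pol (c : J → ℝ) : Set R2 := {z | ∀ j, f j z ≤ c j}

def Bad (c : J → ℝ) (δ : ℝ) : Set R2 :=
  {z | ∃ j j', j ≠ j' ∧ |f j z - c j| ≤ δ ∧ |f j' z - c j'| ≤ δ}

lemma G_upper (c h : J → ℝ) (M : Set R2) (hM : ∀ j, ∀ m ∈ M, f j m ≤ h j) (ε : ℝ)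
    (hε : 0 ≤ ε) : Pol f c + ε • M ⊆ Pol f (fun j => c j + ε * h j) := by
  rintro _ ⟨z, hz, _, ⟨m, hm, rfl⟩, rfl⟩ j
  have h1 := hz j
  have h2 := mul_le_mul_of_nonneg_left (hM j m hm) hε
  change f j (z + ε • m) ≤ _
  rw [map_add, map_smul, smul_eq_mul]
  linarith

lemma G_lower [Nonempty J] (c h : J → ℝ) (M : Set R2) (l : J → R2) (hlM : ∀ j, l j ∈ M)
    (hl : ∀ j, f j (l j) = h j) (C : ℝ) (hC : ∀ j, ∀ m ∈ M, |f j m| ≤ C) (ε : ℝ)
    (hε : 0 ≤ ε) : Pol f (fun j => c j + ε * h j) ⊆ (Pol f c + ε • M) ∪ Bad f c (C * ε) := by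
  intro z hz
  have hhC : ∀ j, h j ≤ C := fun j => by
    rw [← hl j]
    exact (le_abs_self _).trans (hC j _ (hlM j))
  by_cases hb : ∃ j j', j ≠ j' ∧ c j - C * ε < f j z ∧ c j' - C * ε < f j' z
  · obtain ⟨j, j', hne, h1, h2⟩ := hb
    right
    have a1 := hz j
    have a2 := hz j'
    have b1 := mul_le_mul_of_nonneg_left (hhC j) hε
    have b2 := mul_le_mul_of_nonneg_left (hhC j') hε
    refine ⟨j, j', hne, abs_le.2 ⟨by linarith, ?_⟩, abs_le.2 ⟨by linarith, ?_⟩⟩
    · simp only at a1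
      linarith
    · simp only at a2
      linarith
  · left
    push Not at hb
    have hi : ∃ i, ∀ j, j ≠ i → f j z ≤ c j - C * ε := by
      by_cases hex : ∃ i, c i - C * ε < f i z
      · obtain ⟨i, hi⟩ := hex
        exact ⟨i, fun j hj => hb i j hj.symm hi⟩
      · push Not at hex
        exact ⟨Classical.arbitrary J, fun j _ => hex j⟩
    obtain ⟨i, hi⟩ := hi
    refine ⟨z - ε • l i, ?_, ε • l i, ⟨l i, hlM i, rfl⟩, by simp⟩
    intro j
    rw [map_sub, map_smul, smul_eq_mul]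
    by_cases hj : j = i
    · subst hj
      have a1 := hz j
      simp only at a1
      rw [hl j]
      linarith
    · have a1 := hi j hj
      have a2 := (abs_le.1 (hC j (l i) (hlM i))).1
      have a3 := mul_le_mul_of_nonneg_left a2 hε
      linarith

end G

/-- measure of a product of two intervals of length `4 δ` -/
def Box (u v δ : ℝ) : Set R2 := Icc (u - 2 * δ) (u + 2 * δ) ×ˢ Icc (v - 2 * δ) (v + 2 * δ)

lemma box_real (u v δ : ℝ) (hδ : 0 ≤ δ) : volume.real (Box u v δ) = 16 * δ ^ 2 := by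
  rw [Box, Measure.volume_eq_prod, measureReal_prod_prod, Real.volume_real_Icc,
    Real.volume_real_Icc, max_eq_left (by linarith), max_eq_left (by linarith)]
  ring

lemma box_lt (u v δ : ℝ) : volume (Box u v δ) ≠ ⊤ := by
  have : IsCompact (Box u v δ) := isCompact_Icc.prod isCompact_Icc
  exact this.measure_lt_top.ne

/-- the six boxes -/
def Six (c d δ : ℝ) : Set R2 :=
  Box (-c) (-d) δ ∪ Box (-d) (-c) δ ∪ Box (-c) (c + d) δ ∪ Box (-d) (c + d) δ ∪
    Box (c + d) (-c) δ ∪ Box (c + d) (-d) δ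

lemma six_real (c d δ : ℝ) (hδ : 0 ≤ δ) : volume.real (Six c d δ) ≤ 96 * δ ^ 2 := by
  unfold Six
  have h1 := measureReal_union_le (μ := volume) (Box (-c) (-d) δ ∪ Box (-d) (-c) δ ∪ Box (-c) (c + d) δ ∪ Box (-d) (c + d) δ ∪
    Box (c + d) (-c) δ) (Box (c + d) (-d) δ)
  have h2 := measureReal_union_le (μ := volume) (Box (-c) (-d) δ ∪ Box (-d) (-c) δ ∪ Box (-c) (c + d) δ ∪ Box (-d) (c + d) δ)
    (Box (c + d) (-c) δ)
  have h3 := measureReal_union_le (μ := volume) (Box (-c) (-d) δ ∪ Box (-d) (-c) δ ∪ Box (-c) (c + d) δ) (Box (-d) (c + d) δ)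
  have h4 := measureReal_union_le (μ := volume) (Box (-c) (-d) δ ∪ Box (-d) (-c) δ) (Box (-c) (c + d) δ)
  have h5 := measureReal_union_le (μ := volume) (Box (-c) (-d) δ) (Box (-d) (-c) δ)
  rw [box_real _ _ _ hδ] at *
  rw [box_real _ _ _ hδ] at h5
  linarith

lemma six_compact (c d δ : ℝ) : IsCompact (Six c d δ) := by
  have h : ∀ u v, IsCompact (Box u v δ) := fun u v => isCompact_Icc.prod isCompact_Icc
  exact (((((h _ _).union (h _ _)).union (h _ _)).union (h _ _)).union (h _ _)).union (h _ _)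

/-- the three functionals `-x`, `-y`, `x+y` -/
noncomputable def g : Fin 3 → R2 →ₗ[ℝ] ℝ :=
  ![-LinearMap.fst ℝ ℝ ℝ, -LinearMap.snd ℝ ℝ ℝ, LinearMap.fst ℝ ℝ ℝ + LinearMap.snd ℝ ℝ ℝ]

@[simp] lemma g0 (z : R2) : g 0 z = -z.1 := rfl
@[simp] lemma g1 (z : R2) : g 1 z = -z.2 := rfl
@[simp] lemma g2 (z : R2) : g 2 z = z.1 + z.2 := rfl

lemma near_six (i j : Fin 3) (hij : i ≠ j) (c d δ : ℝ) (z : R2) (h1 : |g i z - c| ≤ δ)
    (h2 : |g j z - d| ≤ δ) : z ∈ Six c d δ := by
  rw [abs_le] at h1 h2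
  obtain ⟨x, y⟩ := z
  unfold Six Box
  simp only [Set.mem_union, Set.mem_prod, Set.mem_Icc]
  fin_cases i <;> fin_cases j
  · exact absurd rfl hij
  · simp at h1 h2
    refine Or.inl (Or.inl (Or.inl (Or.inl (Or.inl ⟨⟨?_, ?_⟩, ?_, ?_⟩)))) <;> linarith
  · simp at h1 h2
    refine Or.inl (Or.inl (Or.inl (Or.inr ⟨⟨?_, ?_⟩, ?_, ?_⟩))) <;> linarith
  · simp at h1 h2
    refine Or.inl (Or.inl (Or.inl (Or.inl (Or.inr ⟨⟨?_, ?_⟩, ?_, ?_⟩)))) <;> linarith
  · exact absurd rfl hij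
  · simp at h1 h2
    refine Or.inl (Or.inr ⟨⟨?_, ?_⟩, ?_, ?_⟩) <;> linarith
  · simp at h1 h2
    refine Or.inl (Or.inl (Or.inr ⟨⟨?_, ?_⟩, ?_, ?_⟩)) <;> linarith
  · simp at h1 h2
    refine Or.inr ⟨⟨?_, ?_⟩, ?_, ?_⟩ <;> linarith
  · exact absurd rfl hij

/-- triangle `{x ≥ u, y ≥ v, x + y ≤ w}` -/
def tri (u v w : ℝ) : Set R2 := {z | u ≤ z.1 ∧ v ≤ z.2 ∧ z.1 + z.2 ≤ w}

lemma tri_compact (u v w : ℝ) : IsCompact (tri u v w) := by
  refine (isCompact_Icc.prod isCompact_Icc).of_isClosed_subset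
    (s := Icc u (w - v) ×ˢ Icc v (w - u)) ?_ ?_
  · have h1 : IsClosed {z : R2 | u ≤ z.1} := isClosed_le continuous_const continuous_fst
    have h2 : IsClosed {z : R2 | v ≤ z.2} := isClosed_le continuous_const continuous_snd
    have h3 : IsClosed {z : R2 | z.1 + z.2 ≤ w} :=
      isClosed_le (continuous_fst.add continuous_snd) continuous_const
    exact h1.inter (h2.inter h3)
  · rintro ⟨x, y⟩ ⟨h1, h2, h3⟩
    simp only at h1 h2 h3
    exact ⟨⟨h1, by simp only; linarith⟩, ⟨h2, by simp only; linarith⟩⟩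

/-- area of the model triangle -/
noncomputable def pp : ℝ := volume.real (tri (-1) (-1) 1)

lemma tri_eq (u v k : ℝ) (hk : 0 < k) :
    tri u v (u + v + 3 * k) = {((u + k, v + k) : R2)} + k • tri (-1) (-1) 1 := by
  ext ⟨x, y⟩
  constructor
  · rintro ⟨h1, h2, h3⟩
    simp only at h1 h2 h3
    refine ⟨_, rfl, ((x - (u + k)), (y - (v + k))), ⟨((x - (u + k)) / k, (y - (v + k)) / k), ?_, ?_⟩, ?_⟩
    · refine ⟨?_, ?_, ?_⟩
      · simp only
        rw [le_div_iff₀ hk]; linarith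
      · simp only
        rw [le_div_iff₀ hk]; linarith
      · simp only
        rw [← add_div, div_le_iff₀ hk]; linarith
    · ext
      · simp only [Prod.smul_mk, smul_eq_mul]; field_simp
      · simp only [Prod.smul_mk, smul_eq_mul]; field_simp
    · ext <;> simp
  · rintro ⟨_, rfl, _, ⟨⟨a, b⟩, ⟨h1, h2, h3⟩, rfl⟩, h⟩
    simp only at h1 h2 h3
    have hx : x = u + k + k * a := (congrArg Prod.fst h).symm
    have hy : y = v + k + k * b := (congrArg Prod.snd h).symm
    refine ⟨?_, ?_, ?_⟩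
    · simp only; nlinarith
    · simp only; nlinarith
    · simp only; nlinarith

lemma tri_real (u v w : ℝ) (h : 0 < w - u - v) :
    volume.real (tri u v w) = ((w - u - v) / 3) ^ 2 * pp := by
  have hw : w = u + v + 3 * ((w - u - v) / 3) := by ring
  have hk : 0 < (w - u - v) / 3 := by linarith
  set k := (w - u - v) / 3 with hkdef
  rw [hw, tri_eq u v k hk, pp]
  rw [Measure.real, Measure.real, Set.singleton_add, Set.image_add_left, measure_preimage_add,
    Measure.addHaar_smul, ENNReal.toReal_mul]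
  congr 1
  have hf : Module.finrank ℝ R2 = 2 := by simp [R2]
  rw [hf, ENNReal.toReal_ofReal (abs_nonneg _), abs_of_nonneg (by positivity)]

/-! support numbers -/

noncomputable def hp (M : Set R2) (i : Fin 3) : ℝ := sSup ((fun z => g i z) '' M)
noncomputable def hm (M : Set R2) (i : Fin 3) : ℝ := sSup ((fun z => -g i z) '' M)
noncomputable def sP (M : Set R2) : ℝ := hp M 0 + hp M 1 + hp M 2
noncomputable def sM (M : Set R2) : ℝ := hm M 0 + hm M 1 + hm M 2

lemma g_cont (i : Fin 3) : Continuous (fun z => g i z) := (g i).continuous_of_finiteDimensional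

lemma hp_spec (M : Set R2) (hM : IsCompact M) (hne : M.Nonempty) (i : Fin 3) :
    (∀ m ∈ M, g i m ≤ hp M i) ∧ ∃ l ∈ M, g i l = hp M i := by
  obtain ⟨l, hl, h1⟩ := hM.exists_sSup_image_eq hne (g_cont i).continuousOn
  refine ⟨fun m hm => ?_, l, hl, h1.symm⟩
  exact le_csSup (hM.image (g_cont i)).bddAbove ⟨m, hm, rfl⟩

lemma hm_spec (M : Set R2) (hM : IsCompact M) (hne : M.Nonempty) (i : Fin 3) :
    (∀ m ∈ M, -g i m ≤ hm M i) ∧ ∃ l ∈ M, -g i l = hm M i := by
  obtain ⟨l, hl, h1⟩ := hM.exists_sSup_image_eq hne (g_cont i).neg.continuousOn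
  refine ⟨fun m hm => ?_, l, hl, h1.symm⟩
  exact le_csSup (hM.image (g_cont i).neg).bddAbove ⟨m, hm, rfl⟩

lemma g_bdd (M : Set R2) (hM : IsCompact M) : ∃ C : ℝ, 0 < C ∧ ∀ i, ∀ m ∈ M, |g i m| ≤ C := by
  have h : ∀ i : Fin 3, ∃ C : ℝ, ∀ m ∈ M, |g i m| ≤ C := by
    intro i
    obtain ⟨C, hC⟩ := (hM.image (g_cont i).abs).bddAbove
    exact ⟨C, fun m hm => hC ⟨m, hm, rfl⟩⟩
  choose C hC using h
  refine ⟨|C 0| + |C 1| + |C 2| + 1, by positivity, fun i m hm => (hC i m hm).trans ?_⟩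
  have h0 := le_abs_self (C 0)
  have h1 := le_abs_self (C 1)
  have h2 := le_abs_self (C 2)
  have h0' := abs_nonneg (C 0)
  have h1' := abs_nonneg (C 1)
  have h2' := abs_nonneg (C 2)
  fin_cases i
  · simp only [Fin.zero_eta]; linarith
  · simp only [Fin.mk_one]; linarith
  · simp only [Fin.reduceFinMk]; linarith

/-- the triangle -/
def TT : Set R2 := tri (-1) (-1) 1

lemma tt_pol : TT = Pol g (fun _ => 1) := by
  ext ⟨x, y⟩
  constructor
  · rintro ⟨h1, h2, h3⟩ j
    simp only at h1 h2 h3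
    fin_cases j
    · simp; linarith
    · simp; linarith
    · simpa using h3
  · intro h
    have h0 := h 0
    have h1 := h 1
    have h2 := h 2
    simp at h0 h1 h2
    refine ⟨?_, ?_, ?_⟩
    · simp only; linarith
    · simp only; linarith
    · simp only; linarith

lemma pol_tri (c : Fin 3 → ℝ) : Pol g c = tri (-c 0) (-c 1) (c 2) := by
  ext ⟨x, y⟩
  constructor
  · intro h
    have h0 := h 0
    have h1 := h 1
    have h2 := h 2
    simp at h0 h1 h2
    refine ⟨?_, ?_, ?_⟩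
    · simp only; linarith
    · simp only; linarith
    · simp only; linarith
  · rintro ⟨h1, h2, h3⟩ j
    simp only at h1 h2 h3
    fin_cases j
    · simp; linarith
    · simp; linarith
    · simpa using h3

lemma zero_smul_add (P M : Set R2) (hne : M.Nonempty) : P + (0 : ℝ) • M = P := by
  rw [Set.zero_smul_set hne]
  simp

theorem T_deriv (M : Set R2) (hM : IsCompact M) (hne : M.Nonempty) :
    HasDerivWithinAt (fun ε : ℝ => volume.real (TT + ε • M)) (2 / 3 * pp * sP M)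
      (Set.Ici 0) 0 := by
  obtain ⟨C, hC0, hC⟩ := g_bdd M hM
  have hspec := hp_spec M hM hne
  choose l hlM hl using fun i => (hspec i).2
  set s := sP M with hs
  have hPε : ∀ ε : ℝ, Pol g (fun j => 1 + ε * hp M j) =
      tri (-(1 + ε * hp M 0)) (-(1 + ε * hp M 1)) (1 + ε * hp M 2) := fun ε => pol_tri _
  have hsum : ∀ ε : ℝ, (1 + ε * hp M 2) - -(1 + ε * hp M 0) - -(1 + ε * hp M 1) = 3 + ε * s := by
    intro ε; rw [hs, sP]; ring
  have hsC : |s| ≤ 3 * C := by
    have : ∀ i, |hp M i| ≤ C := fun i => by rw [← hl i]; exact hC i _ (hlM i)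
    have h0 := this 0
    have h1 := this 1
    have h2 := this 2
    rw [abs_le] at h0 h1 h2 ⊢
    rw [hs, sP]
    constructor <;> linarith
  have hpos : ∀ ε : ℝ, 0 < ε → ε < 1 / (2 * C) → 0 < 3 + ε * s := by
    intro ε h0 h1
    have h2 : ε * (2 * C) < 1 := by rwa [lt_div_iff₀ (by positivity)] at h1
    have h3 := (abs_le.1 hsC).1
    nlinarith
  have harea : ∀ ε : ℝ, 0 < ε → ε < 1 / (2 * C) →
      volume.real (Pol g (fun j => 1 + ε * hp M j)) = ((3 + ε * s) / 3) ^ 2 * pp := by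
    intro ε h0 h1
    rw [hPε, tri_real _ _ _ (by rw [hsum]; exact hpos ε h0 h1), hsum]
  have hpos0 : (fun ε : ℝ => ((3 + ε * s) / 3) ^ 2 * pp) 0 = volume.real (TT + (0:ℝ) • M) := by
    rw [zero_smul_add _ _ hne]
    simp [TT, pp]
  refine squeeze_deriv (l := fun ε => ((3 + ε * s) / 3) ^ 2 * pp - 96 * (C * ε) ^ 2)
    (u := fun ε => ((3 + ε * s) / 3) ^ 2 * pp) ?_ ?_ ?_ ?_ (1 / (2 * C)) (by positivity) ?_ ?_
  · have h : HasDerivAt (fun ε : ℝ => ((3 + ε * s) / 3) ^ 2 * pp - 96 * (C * ε) ^ 2)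
        (2 / 3 * pp * s) 0 := by
      have h1 : HasDerivAt (fun ε : ℝ => (3 + ε * s) / 3) (s / 3) 0 := by
        simpa using (((hasDerivAt_id (0:ℝ)).mul_const s).const_add 3).div_const 3
      have h2 : HasDerivAt (fun ε : ℝ => C * ε) C 0 := by
        simpa using (hasDerivAt_id (0:ℝ)).const_mul C
      have h3 := ((h1.pow 2).mul_const pp).sub ((h2.pow 2).const_mul 96)
      have he : (2 : ℝ) / 3 * pp * s = ↑(2 : ℕ) * ((3 + 0 * s) / 3) ^ (2 - 1) * (s / 3) * pp -
          96 * (↑(2 : ℕ) * (C * 0) ^ (2 - 1) * C) := by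
        norm_num
        ring
      rw [he]
      exact h3
    exact h.hasDerivWithinAt
  · have h : HasDerivAt (fun ε : ℝ => ((3 + ε * s) / 3) ^ 2 * pp)
        (2 / 3 * pp * s) 0 := by
      have h1 : HasDerivAt (fun ε : ℝ => (3 + ε * s) / 3) (s / 3) 0 := by
        simpa using (((hasDerivAt_id (0:ℝ)).mul_const s).const_add 3).div_const 3
      have h3 := (h1.pow 2).mul_const pp
      have he : (2 : ℝ) / 3 * pp * s = ↑(2 : ℕ) * ((3 + 0 * s) / 3) ^ (2 - 1) * (s / 3) * pp := by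
        norm_num
        ring
      rw [he]
      exact h3
    exact h.hasDerivWithinAt
  · simp only [mul_zero]
    rw [← hpos0]
    simp
  · exact hpos0
  · intro ε h0 h1
    have hsub := G_lower g (fun _ => 1) (hp M) M l hlM hl C hC ε h0.le
    have hbad : Bad g (fun _ => 1) (C * ε) ⊆ Six 1 1 (C * ε) := by
      rintro z ⟨j, j', hne', a1, a2⟩
      exact near_six j j' hne' 1 1 _ z a1 a2
    have hcompact : IsCompact (TT + ε • M) := (tri_compact _ _ _).add (hM.smul ε)
    have h2 : volume.real (Pol g (fun j => 1 + ε * hp M j)) ≤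
        volume.real ((TT + ε • M) ∪ Six 1 1 (C * ε)) := by
      apply measureReal_mono
      · rw [tt_pol]
        exact hsub.trans (Set.union_subset_union_right _ hbad)
      · exact (hcompact.union (six_compact _ _ _)).measure_lt_top.ne
    have h3 := measureReal_union_le (μ := volume) (TT + ε • M) (Six 1 1 (C * ε))
    have h4 := six_real 1 1 (C * ε) (by positivity)
    rw [harea ε h0 h1] at h2
    linarith
  · intro ε h0 h1
    have hsub := G_upper g (fun _ => 1) (hp M) M (fun j => (hspec j).1) ε h0.le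
    rw [← harea ε h0 h1]
    apply measureReal_mono
    · rw [tt_pol]
      exact hsub
    · rw [hPε]
      exact (tri_compact _ _ _).measure_lt_top.ne

theorem negT_deriv (M : Set R2) (hM : IsCompact M) (hne : M.Nonempty) :
    HasDerivWithinAt (fun ε : ℝ => volume.real (-TT + ε • M)) (2 / 3 * pp * sM M)
      (Set.Ici 0) 0 := by
  have h := T_deriv (-M) hM.neg hne.neg
  have h1 : sP (-M) = sM M := by
    have : ∀ i, hp (-M) i = hm M i := by
      intro i
      unfold hp hm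
      congr 1
      ext t
      constructor
      · rintro ⟨z, hz, rfl⟩
        exact ⟨-z, hz, by simp⟩
      · rintro ⟨z, hz, rfl⟩
        exact ⟨-z, by simpa using hz, by simp⟩
    simp [sP, sM, this]
  rw [h1] at h
  refine h.congr_of_eventuallyEq ?_ ?_ 
  · refine Eventually.of_forall (fun ε => ?_)
    have : -TT + ε • M = -(TT + ε • (-M)) := by
      rw [neg_add, smul_set_neg, neg_neg]
    change volume.real (-TT + ε • M) = volume.real (TT + ε • (-M))
    rw [this, Measure.real, Measure.real, Measure.measure_neg]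
  · have : -TT + (0:ℝ) • M = -(TT + (0:ℝ) • (-M)) := by
      rw [neg_add, smul_set_neg, neg_neg]
    change volume.real (-TT + (0:ℝ) • M) = volume.real (TT + (0:ℝ) • (-M))
    rw [this, Measure.real, Measure.real, Measure.measure_neg]

end Pool.Agent.Bl20
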