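import Pool.Agent.Bl20.Basic

set_option autoImplicit false
open MeasureTheory Set Filter Topology
open scoped Pointwise

namespace Pool.Agent.Bl20

def Hab (a b : Fin 3 → ℝ) : Set R2 := {z | ∀ i, -b i ≤ g i z ∧ g i z ≤ a i}

lemma Hab_mem (a b : Fin 3 → ℝ) (x y : ℝ) : ((x, y) : R2) ∈ Hab a b ↔
    (-b 0 ≤ -x ∧ -x ≤ a 0) ∧ (-b 1 ≤ -y ∧ -y ≤ a 1) ∧ (-b 2 ≤ x + y ∧ x + y ≤ a 2) := by
  constructor
  · intro h
    exact ⟨h 0, h 1, h 2⟩
  · rintro ⟨h0, h1, h2⟩ i
    fin_cases i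
    · exact h0
    · exact h1
    · exact h2

lemma Hab_compact (a b : Fin 3 → ℝ) : IsCompact (Hab a b) := by
  refine (tri_compact (-a 0) (-a 1) (a 2)).of_isClosed_subset ?_ ?_
  · have : Hab a b = ⋂ i, ({z | -b i ≤ g i z} ∩ {z | g i z ≤ a i}) := by
      ext z
      simp [Hab]
    rw [this]
    exact isClosed_iInter (fun i => (isClosed_le continuous_const (g_cont i)).inter
      (isClosed_le (g_cont i) continuous_const))
  · rintro ⟨x, y⟩ h
    rw [Hab_mem] at h
    refine ⟨?_, ?_, ?_⟩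
    · simp only; linarith [h.1.2]
    · simp only; linarith [h.2.1.2]
    · simp only; linarith [h.2.2.2]

lemma Hab_area (a b : Fin 3 → ℝ) (h01 : a 2 < b 0 + b 1) (h02 : a 1 < b 0 + b 2)
    (h12 : a 0 < b 1 + b 2) (hk0 : 0 < a 2 + a 1 - b 0) (hk1 : 0 < a 2 + a 0 - b 1)
    (hk2 : 0 < a 0 + a 1 - b 2) (hA : 0 < a 0 + a 1 + a 2) (hb : ∀ i, -a i ≤ b i) :
    volume.real (Hab a b) = ((a 0 + a 1 + a 2) / 3) ^ 2 * pp - ((a 2 + a 1 - b 0) / 3) ^ 2 * pp
      - ((a 2 + a 0 - b 1) / 3) ^ 2 * pp - ((a 0 + a 1 - b 2) / 3) ^ 2 * pp := by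
  have hb0 := hb 0
  have hb1 := hb 1
  have hb2 := hb 2
  have hΔ : volume.real (tri (-a 0) (-a 1) (a 2)) = ((a 0 + a 1 + a 2) / 3) ^ 2 * pp := by
    rw [tri_real _ _ _ (by linarith)]
    ring
  have hfin : ∀ u v w, volume (tri u v w) ≠ ⊤ := fun u v w => (tri_compact u v w).measure_lt_top.ne
  have hmeas : ∀ u v w, MeasurableSet (tri u v w) := fun u v w =>
    (tri_compact u v w).isClosed.measurableSet
  apply le_antisymm
  · -- upper bound through a limit
    have hev : ∀ᶠ η : ℝ in 𝓝[>] 0, volume.real (Hab a b) ≤ ((a 0 + a 1 + a 2) / 3) ^ 2 * pp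
        - ((a 2 + a 1 - b 0 - η) / 3) ^ 2 * pp
        - ((a 2 + a 0 - b 1 - η) / 3) ^ 2 * pp - ((a 0 + a 1 - b 2 - η) / 3) ^ 2 * pp := by
      have e0 : ∀ᶠ η : ℝ in 𝓝[>] 0, η < a 2 + a 1 - b 0 :=
        mem_nhdsWithin_of_mem_nhds (Iio_mem_nhds hk0)
      have e1 : ∀ᶠ η : ℝ in 𝓝[>] 0, η < a 2 + a 0 - b 1 :=
        mem_nhdsWithin_of_mem_nhds (Iio_mem_nhds hk1)
      have e2 : ∀ᶠ η : ℝ in 𝓝[>] 0, η < a 0 + a 1 - b 2 :=
        mem_nhdsWithin_of_mem_nhds (Iio_mem_nhds hk2)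
      filter_upwards [e0, e1, e2, self_mem_nhdsWithin] with η he0 he1 he2 he
      have he' : 0 < η := he
      have hC0 : volume.real (tri (b 0 + η) (-a 1) (a 2)) =
          ((a 2 + a 1 - b 0 - η) / 3) ^ 2 * pp := by
        rw [tri_real _ _ _ (by linarith)]
        ring
      have hC1 : volume.real (tri (-a 0) (b 1 + η) (a 2)) =
          ((a 2 + a 0 - b 1 - η) / 3) ^ 2 * pp := by
        rw [tri_real _ _ _ (by linarith)]
        ring
      have hC2 : volume.real (tri (-a 0) (-a 1) (-b 2 - η)) =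
          ((a 0 + a 1 - b 2 - η) / 3) ^ 2 * pp := by
        rw [tri_real _ _ _ (by linarith)]
        ring
      have d1 : Disjoint (Hab a b) (tri (b 0 + η) (-a 1) (a 2)) := by
        rw [Set.disjoint_left]
        rintro ⟨x, y⟩ h1 ⟨h2, h3, h4⟩
        rw [Hab_mem] at h1
        simp only at h2 h3 h4
        linarith [h1.1.1]
      have d2 : Disjoint (Hab a b ∪ tri (b 0 + η) (-a 1) (a 2)) (tri (-a 0) (b 1 + η) (a 2)) := by
        rw [Set.disjoint_left]
        rintro ⟨x, y⟩ h1 ⟨h2, h3, h4⟩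
        simp only at h2 h3 h4
        rcases h1 with h1 | ⟨h5, h6, h7⟩
        · rw [Hab_mem] at h1
          linarith [h1.2.1.1]
        · simp only at h5 h6 h7
          linarith
      have d3 : Disjoint (Hab a b ∪ tri (b 0 + η) (-a 1) (a 2) ∪ tri (-a 0) (b 1 + η) (a 2))
          (tri (-a 0) (-a 1) (-b 2 - η)) := by
        rw [Set.disjoint_left]
        rintro ⟨x, y⟩ h1 ⟨h2, h3, h4⟩
        simp only at h2 h3 h4
        rcases h1 with (h1 | ⟨h5, h6, h7⟩) | ⟨h5, h6, h7⟩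
        · rw [Hab_mem] at h1
          linarith [h1.2.2.1]
        · simp only at h5 h6 h7
          linarith
        · simp only at h5 h6 h7
          linarith
      have hHf : volume (Hab a b) ≠ ⊤ := (Hab_compact a b).measure_lt_top.ne
      have u1 := measureReal_union (μ := volume) d1 (hmeas _ _ _) hHf (hfin _ _ _)
      have f1 : volume (Hab a b ∪ tri (b 0 + η) (-a 1) (a 2)) ≠ ⊤ :=
        ((Hab_compact a b).union (tri_compact _ _ _)).measure_lt_top.ne
      have u2 := measureReal_union (μ := volume) d2 (hmeas _ _ _) f1 (hfin _ _ _)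
      have f2 : volume (Hab a b ∪ tri (b 0 + η) (-a 1) (a 2) ∪ tri (-a 0) (b 1 + η) (a 2)) ≠ ⊤ :=
        (((Hab_compact a b).union (tri_compact _ _ _)).union (tri_compact _ _ _)).measure_lt_top.ne
      have u3 := measureReal_union (μ := volume) d3 (hmeas _ _ _) f2 (hfin _ _ _)
      have hsub : Hab a b ∪ tri (b 0 + η) (-a 1) (a 2) ∪ tri (-a 0) (b 1 + η) (a 2) ∪
          tri (-a 0) (-a 1) (-b 2 - η) ⊆ tri (-a 0) (-a 1) (a 2) := by
        rintro ⟨x, y⟩ (((h1 | ⟨h5, h6, h7⟩) | ⟨h5, h6, h7⟩) | ⟨h5, h6, h7⟩)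
        · rw [Hab_mem] at h1
          refine ⟨?_, ?_, ?_⟩
          · simp only; linarith [h1.1.2]
          · simp only; linarith [h1.2.1.2]
          · simp only; linarith [h1.2.2.2]
        · simp only at h5 h6 h7
          refine ⟨?_, ?_, ?_⟩ <;> simp only <;> linarith
        · simp only at h5 h6 h7
          refine ⟨?_, ?_, ?_⟩ <;> simp only <;> linarith
        · simp only at h5 h6 h7
          refine ⟨?_, ?_, ?_⟩ <;> simp only <;> linarith
      have m := measureReal_mono (μ := volume) hsub (hfin _ _ _)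
      rw [u3, u2, u1, hΔ, hC0, hC1, hC2] at m
      linarith
    have hcont : Continuous (fun η : ℝ => ((a 0 + a 1 + a 2) / 3) ^ 2 * pp
        - ((a 2 + a 1 - b 0 - η) / 3) ^ 2 * pp
        - ((a 2 + a 0 - b 1 - η) / 3) ^ 2 * pp - ((a 0 + a 1 - b 2 - η) / 3) ^ 2 * pp) := by
      fun_prop
    have ht := (hcont.tendsto 0).mono_left (nhdsWithin_le_nhds (s := Set.Ioi (0:ℝ)))
    have := ge_of_tendsto ht hev
    simpa using this
  · have hsub : tri (-a 0) (-a 1) (a 2) ⊆ Hab a b ∪ tri (b 0) (-a 1) (a 2) ∪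
        tri (-a 0) (b 1) (a 2) ∪ tri (-a 0) (-a 1) (-b 2) := by
      rintro ⟨x, y⟩ ⟨h1, h2, h3⟩
      simp only at h1 h2 h3
      by_cases c0 : b 0 ≤ x
      · exact Or.inl (Or.inl (Or.inr ⟨c0, h2, h3⟩))
      · by_cases c1 : b 1 ≤ y
        · exact Or.inl (Or.inr ⟨h1, c1, h3⟩)
        · by_cases c2 : x + y ≤ -b 2
          · exact Or.inr ⟨h1, h2, c2⟩
          · left; left; left
            rw [Hab_mem]
            push Not at c0 c1 c2
            refine ⟨⟨?_, ?_⟩, ⟨?_, ?_⟩, ?_, ?_⟩ <;> linarith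
    have hC0 : volume.real (tri (b 0) (-a 1) (a 2)) = ((a 2 + a 1 - b 0) / 3) ^ 2 * pp := by
      rw [tri_real _ _ _ (by linarith)]
      ring
    have hC1 : volume.real (tri (-a 0) (b 1) (a 2)) = ((a 2 + a 0 - b 1) / 3) ^ 2 * pp := by
      rw [tri_real _ _ _ (by linarith)]
      ring
    have hC2 : volume.real (tri (-a 0) (-a 1) (-b 2)) = ((a 0 + a 1 - b 2) / 3) ^ 2 * pp := by
      rw [tri_real _ _ _ (by linarith)]
      ring
    have m := measureReal_mono (μ := volume) hsub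
      ((((Hab_compact a b).union (tri_compact _ _ _)).union (tri_compact _ _ _)).union
        (tri_compact _ _ _)).measure_lt_top.ne
    have m1 := measureReal_union_le (μ := volume) (Hab a b ∪ tri (b 0) (-a 1) (a 2) ∪
        tri (-a 0) (b 1) (a 2)) (tri (-a 0) (-a 1) (-b 2))
    have m2 := measureReal_union_le (μ := volume) (Hab a b ∪ tri (b 0) (-a 1) (a 2))
        (tri (-a 0) (b 1) (a 2))
    have m3 := measureReal_union_le (μ := volume) (Hab a b) (tri (b 0) (-a 1) (a 2))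
    rw [hΔ] at m
    rw [hC2] at m1
    rw [hC1] at m2
    rw [hC0] at m3
    linarith

noncomputable def ff : Fin 3 × Bool → R2 →ₗ[ℝ] ℝ := fun j => if j.2 then g j.1 else -g j.1

noncomputable def hh (M : Set R2) : Fin 3 × Bool → ℝ :=
  fun j => if j.2 then hp M j.1 else hm M j.1

def Hex (ρ : ℝ) : Set R2 := Hab (fun _ => ρ) (fun _ => ρ)

lemma pol_hab (a : Fin 3 × Bool → ℝ) :
    Pol ff a = Hab (fun i => a (i, true)) (fun i => a (i, false)) := by
  ext z
  constructor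
  · intro h i
    have h1 := h (i, true)
    have h2 := h (i, false)
    simp [ff] at h1 h2
    exact ⟨by linarith, h1⟩
  · rintro h ⟨i, b⟩
    cases b
    · simp [ff]
      linarith [(h i).1]
    · simp [ff]
      exact (h i).2

def Four (ρ δ : ℝ) : Set R2 := Six ρ ρ δ ∪ Six ρ (-ρ) δ ∪ Six (-ρ) ρ δ ∪ Six (-ρ) (-ρ) δ

lemma four_real (ρ δ : ℝ) (hδ : 0 ≤ δ) : volume.real (Four ρ δ) ≤ 384 * δ ^ 2 := by
  have m1 := measureReal_union_le (μ := volume) (Six ρ ρ δ ∪ Six ρ (-ρ) δ ∪ Six (-ρ) ρ δ)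
    (Six (-ρ) (-ρ) δ)
  have m2 := measureReal_union_le (μ := volume) (Six ρ ρ δ ∪ Six ρ (-ρ) δ) (Six (-ρ) ρ δ)
  have m3 := measureReal_union_le (μ := volume) (Six ρ ρ δ) (Six ρ (-ρ) δ)
  have a1 := six_real ρ ρ δ hδ
  have a2 := six_real ρ (-ρ) δ hδ
  have a3 := six_real (-ρ) ρ δ hδ
  have a4 := six_real (-ρ) (-ρ) δ hδ
  unfold Four
  linarith

lemma four_compact (ρ δ : ℝ) : IsCompact (Four ρ δ) :=
  (((six_compact _ _ _).union (six_compact _ _ _)).union (six_compact _ _ _)).union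
    (six_compact _ _ _)

lemma bad_four (ρ δ : ℝ) (hδ : δ < ρ) : Bad ff (fun _ => ρ) δ ⊆ Four ρ δ := by
  rintro z ⟨⟨i, b⟩, ⟨i', b'⟩, hne, h1, h2⟩
  by_cases hi : i = i'
  · subst hi
    exfalso
    rw [abs_le] at h1 h2
    cases b <;> cases b'
    · exact hne rfl
    · simp [ff] at h1 h2
      linarith [h1.1, h1.2, h2.1, h2.2]
    · simp [ff] at h1 h2
      linarith [h1.1, h1.2, h2.1, h2.2]
    · exact hne rfl
  · have hneg : ∀ k : Fin 3, |(-g k) z - ρ| ≤ δ → |g k z - -ρ| ≤ δ := by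
      intro k hk
      rw [abs_le] at hk ⊢
      simp at hk ⊢
      constructor <;> linarith [hk.1, hk.2]
    cases b <;> cases b'
    · right
      exact near_six i i' hi _ _ _ z (hneg i (by simpa [ff] using h1)) (hneg i' (by simpa [ff] using h2))
    · left; right
      exact near_six i i' hi _ _ _ z (hneg i (by simpa [ff] using h1)) (by simpa [ff] using h2)
    · left; left; right
      exact near_six i i' hi _ _ _ z (by simpa [ff] using h1) (hneg i' (by simpa [ff] using h2))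
    · left; left; left
      exact near_six i i' hi _ _ _ z (by simpa [ff] using h1) (by simpa [ff] using h2)

end Pool.Agent.Bl20
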