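import Pool.Agent.Bl20.Hex

set_option autoImplicit false
open MeasureTheory Set Filter Topology
open scoped Pointwise

namespace Pool.Agent.Bl20

lemma sq_deriv (A s : ℝ) :
    HasDerivAt (fun ε : ℝ => ((A + ε * s) / 3) ^ 2 * pp) (2 * A * s / 9 * pp) 0 := by
  have h1 : HasDerivAt (fun ε : ℝ => (A + ε * s) / 3) (s / 3) 0 := by
    simpa using (((hasDerivAt_id (0:ℝ)).mul_const s).const_add A).div_const 3
  have h3 := (h1.pow 2).mul_const pp
  have he : 2 * A * s / 9 * pp = ↑(2 : ℕ) * ((A + 0 * s) / 3) ^ (2 - 1) * (s / 3) * pp := by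
    have h21 : (2 - 1 : ℕ) = 1 := rfl
    rw [h21]
    push_cast
    ring
  rw [he]
  exact h3

theorem H_deriv (ρ : ℝ) (hρ : 0 < ρ) (M : Set R2) (hM : IsCompact M) (hne : M.Nonempty) :
    HasDerivWithinAt (fun ε : ℝ => volume.real (Hex ρ + ε • M))
      (2 / 9 * pp * ρ * (sP M + sM M)) (Set.Ici 0) 0 := by
  obtain ⟨C, hC0, hC⟩ := g_bdd M hM
  have hspec := hp_spec M hM hne
  have hspec' := hm_spec M hM hne
  choose l hlM hl using fun i => (hspec i).2
  choose l' hlM' hl' using fun i => (hspec' i).2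
  set F : ℝ → ℝ := fun ε => ((3 * ρ + ε * sP M) / 3) ^ 2 * pp
    - ((ρ + ε * (hp M 2 + hp M 1 - hm M 0)) / 3) ^ 2 * pp
    - ((ρ + ε * (hp M 2 + hp M 0 - hm M 1)) / 3) ^ 2 * pp
    - ((ρ + ε * (hp M 0 + hp M 1 - hm M 2)) / 3) ^ 2 * pp with hF
  have hpC : ∀ i, |hp M i| ≤ C := fun i => by rw [← hl i]; exact hC i _ (hlM i)
  have hmC : ∀ i, |hm M i| ≤ C := fun i => by
    rw [← hl' i, abs_neg]; exact hC i _ (hlM' i)
  have hFd : HasDerivAt F (2 / 9 * pp * ρ * (sP M + sM M)) 0 := by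
    have h := (((sq_deriv (3 * ρ) (sP M)).sub (sq_deriv ρ (hp M 2 + hp M 1 - hm M 0))).sub
      (sq_deriv ρ (hp M 2 + hp M 0 - hm M 1))).sub (sq_deriv ρ (hp M 0 + hp M 1 - hm M 2))
    have he : 2 / 9 * pp * ρ * (sP M + sM M) = 2 * (3 * ρ) * sP M / 9 * pp
        - 2 * ρ * (hp M 2 + hp M 1 - hm M 0) / 9 * pp
        - 2 * ρ * (hp M 2 + hp M 0 - hm M 1) / 9 * pp
        - 2 * ρ * (hp M 0 + hp M 1 - hm M 2) / 9 * pp := by
      rw [sP, sM]; ring
    rw [he]
    exact h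
  have harea : ∀ ε : ℝ, 0 ≤ ε → ε < ρ / (8 * C) →
      volume.real (Pol ff (fun j => ρ + ε * hh M j)) = F ε := by
    intro ε h0 h1
    have h2 : ε * (8 * C) < ρ := by rwa [lt_div_iff₀ (by positivity)] at h1
    have hb : ∀ t : ℝ, |t| ≤ C → -(ρ / 8) < ε * t ∧ ε * t < ρ / 8 := by
      intro t ht
      have h3 := abs_le.1 ht
      have h4 := mul_le_mul_of_nonneg_left h3.1 h0
      have h5 := mul_le_mul_of_nonneg_left h3.2 h0
      constructor <;> linarith
    rw [pol_hab]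
    have p0 := hb _ (hpC 0)
    have p1 := hb _ (hpC 1)
    have p2 := hb _ (hpC 2)
    have m0 := hb _ (hmC 0)
    have m1 := hb _ (hmC 1)
    have m2 := hb _ (hmC 2)
    have e1 : ∀ i, hh M (i, true) = hp M i := fun i => by simp [hh]
    have e2 : ∀ i, hh M (i, false) = hm M i := fun i => by simp [hh]
    simp only [e1, e2]
    rw [Hab_area _ _ (by linarith) (by linarith) (by linarith) (by linarith) (by linarith)
      (by linarith) (by linarith) (fun i => by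
        have := hb _ (hpC i)
        have := hb _ (hmC i)
        linarith)]
    rw [hF]
    simp only [sP]
    ring
  have hbound : ∀ j, ∀ m ∈ M, |ff j m| ≤ C := by
    rintro ⟨i, b⟩ m hm'
    cases b
    · simp [ff, abs_neg]
      exact hC i m hm'
    · simp [ff]
      exact hC i m hm'
  have hup : ∀ j, ∀ m ∈ M, ff j m ≤ hh M j := by
    rintro ⟨i, b⟩ m hm'
    cases b
    · simp only [ff, hh]
      simpa using (hspec' i).1 m hm'
    · simp only [ff, hh]
      simpa using (hspec i).1 m hm'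
  have hexpol : Hex ρ = Pol ff (fun _ => ρ) := by rw [pol_hab]; rfl
  have hF0 : F 0 = volume.real (Hex ρ + (0:ℝ) • M) := by
    rw [zero_smul_add _ _ hne, ← harea 0 le_rfl (by positivity), hexpol]
    simp
  refine squeeze_deriv (l := fun ε => F ε - 384 * (C * ε) ^ 2) (u := F) ?_
    hFd.hasDerivWithinAt ?_ hF0 (ρ / (8 * C)) (by positivity) ?_ ?_
  · have h2 : HasDerivAt (fun ε : ℝ => C * ε) C 0 := by
      simpa using (hasDerivAt_id (0:ℝ)).const_mul C
    have h3 := hFd.sub ((h2.pow 2).const_mul 384)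
    have he : 2 / 9 * pp * ρ * (sP M + sM M) = 2 / 9 * pp * ρ * (sP M + sM M) -
        384 * (↑(2 : ℕ) * (C * 0) ^ (2 - 1) * C) := by
      norm_num
    rw [he]
    exact h3.hasDerivWithinAt
  · rw [← hF0]
    simp
  · intro ε h0 h1
    let lf : Fin 3 × Bool → R2 := fun j => if j.2 then l j.1 else l' j.1
    have hlf : ∀ j, lf j ∈ M := by
      rintro ⟨i, b⟩
      cases b
      · exact hlM' i
      · exact hlM i
    have hlf2 : ∀ j, ff j (lf j) = hh M j := by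
      rintro ⟨i, b⟩
      cases b
      · simp only [ff, hh, lf]
        simpa using hl' i
      · simp only [ff, hh, lf]
        simpa using hl i
    have hsub := G_lower ff (fun _ => ρ) (hh M) M lf hlf hlf2 C hbound ε h0.le
    have h2 : ε * (8 * C) < ρ := by rwa [lt_div_iff₀ (by positivity)] at h1
    have hbad := bad_four ρ (C * ε) (by nlinarith)
    have hcompact : IsCompact (Hex ρ + ε • M) := (Hab_compact _ _).add (hM.smul ε)
    have h3 : volume.real (Pol ff (fun j => ρ + ε * hh M j)) ≤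
        volume.real ((Hex ρ + ε • M) ∪ Four ρ (C * ε)) := by
      apply measureReal_mono
      · rw [hexpol]
        exact hsub.trans (Set.union_subset_union_right _ hbad)
      · exact (hcompact.union (four_compact _ _)).measure_lt_top.ne
    have h4 := measureReal_union_le (μ := volume) (Hex ρ + ε • M) (Four ρ (C * ε))
    have h5 := four_real ρ (C * ε) (by positivity)
    rw [harea ε h0.le h1] at h3
    linarith
  · intro ε h0 h1
    have hsub := G_upper ff (fun _ => ρ) (hh M) M hup ε h0.le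
    rw [← harea ε h0.le h1]
    apply measureReal_mono
    · rw [hexpol]
      exact hsub
    · rw [pol_hab]
      exact (Hab_compact _ _).measure_lt_top.ne

abbrev V4 : Type := R2 × R2

lemma inner_mem (P : Set R2) (hv : Convex ℝ P) (hb : ∀ z : R2, ‖z‖ ≤ 1 / 2 → z ∈ P) (R ε : ℝ)
    (hR : 0 < R) (hε : 0 ≤ ε) (h1 : 2 * R * ε ≤ 1) (m : R2) (hm : ‖m‖ ≤ R) (p : R2) (hp : p ∈ P) :
    (1 - 2 * R * ε) • p - ε • m ∈ P := by
  have h2 : (1 - 2 * R * ε) • p - ε • m =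
      (1 - 2 * R * ε) • p + (2 * R * ε) • ((-(1 / (2 * R))) • m) := by
    rw [smul_smul, sub_eq_add_neg, ← neg_smul]
    congr 2
    field_simp
  rw [h2]
  refine hv hp (hb _ ?_) (by linarith) (by positivity) (by ring)
  rw [norm_smul, norm_neg, Real.norm_eq_abs, abs_of_pos (by positivity)]
  calc 1 / (2 * R) * ‖m‖ ≤ 1 / (2 * R) * R := by gcongr
    _ = 1 / 2 := by field_simp

lemma smul_real (P : Set R2) (k : ℝ) : volume.real (k • P) = k ^ 2 * volume.real P := by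
  rw [Measure.real, Measure.real, Measure.addHaar_smul, ENNReal.toReal_mul]
  congr 1
  have hf : Module.finrank ℝ R2 = 2 := by simp [R2]
  rw [hf, ENNReal.toReal_ofReal (abs_nonneg _), abs_of_nonneg (by positivity)]

theorem prod_deriv (P1 P2 : Set R2) (hc1 : IsCompact P1) (hc2 : IsCompact P2)
    (hv1 : Convex ℝ P1) (hv2 : Convex ℝ P2) (hb1 : ∀ z : R2, ‖z‖ ≤ 1 / 2 → z ∈ P1)
    (hb2 : ∀ z : R2, ‖z‖ ≤ 1 / 2 → z ∈ P2) (N : Set V4) (hN : IsCompact N) (hne : N.Nonempty)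
    (s1 s2 : ℝ)
    (h1 : HasDerivWithinAt (fun ε : ℝ => volume.real (P1 + ε • (Prod.fst '' N))) s1 (Set.Ici 0) 0)
    (h2 : HasDerivWithinAt (fun ε : ℝ => volume.real (P2 + ε • (Prod.snd '' N))) s2 (Set.Ici 0) 0) :
    HasDerivWithinAt (fun ε : ℝ => volume.real (P1 ×ˢ P2 + ε • N))
      (s1 * volume.real P2 + volume.real P1 * s2) (Set.Ici 0) 0 := by
  obtain ⟨R0, hR0⟩ := hN.isBounded.exists_norm_le
  set R := max R0 1 with hRdef
  have hR : 0 < R := lt_of_lt_of_le one_pos (le_max_right _ _)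
  have hRn : ∀ n ∈ N, ‖n.1‖ ≤ R ∧ ‖n.2‖ ≤ R := by
    intro n hn
    have := (hR0 n hn).trans (le_max_left R0 1)
    exact ⟨(norm_fst_le n).trans this, (norm_snd_le n).trans this⟩
  set a1 : ℝ → ℝ := fun ε => volume.real (P1 + ε • (Prod.fst '' N)) with ha1
  set a2 : ℝ → ℝ := fun ε => volume.real (P2 + ε • (Prod.snd '' N)) with ha2
  set p1 := volume.real P1 with hp1
  set p2 := volume.real P2 with hp2
  have ha10 : a1 0 = p1 := by rw [ha1]; simp only; rw [zero_smul_add _ _ (hne.image _)]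
  have ha20 : a2 0 = p2 := by rw [ha2]; simp only; rw [zero_smul_add _ _ (hne.image _)]
  have hM1 : IsCompact (Prod.fst '' N) := hN.image continuous_fst
  have hM2 : IsCompact (Prod.snd '' N) := hN.image continuous_snd
  have hq : ∀ p : ℝ, HasDerivAt (fun ε : ℝ => (1 - 2 * R * ε) ^ 2 * p) (-(4 * R) * p) 0 := by
    intro p
    have e1 : HasDerivAt (fun ε : ℝ => 1 - 2 * R * ε) (-(2 * R)) 0 := by
      simpa using ((hasDerivAt_id (0:ℝ)).const_mul (2 * R)).const_sub 1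
    have e3 := (e1.pow 2).mul_const p
    have he : -(4 * R) * p = ↑(2 : ℕ) * (1 - 2 * R * 0) ^ (2 - 1) * (-(2 * R)) * p := by
      have h21 : (2 - 1 : ℕ) = 1 := rfl
      rw [h21]
      push_cast
      ring
    rw [he]
    exact e3
  have hu : HasDerivWithinAt (fun ε => a1 ε * a2 ε) (s1 * p2 + p1 * s2) (Set.Ici 0) 0 := by
    have := h1.mul h2
    rw [← ha10, ← ha20]
    exact this
  have hl : HasDerivWithinAt (fun ε => a1 ε * ((1 - 2 * R * ε) ^ 2 * p2) +
      ((1 - 2 * R * ε) ^ 2 * p1) * a2 ε - ((1 - 2 * R * ε) ^ 2 * p1) * ((1 - 2 * R * ε) ^ 2 * p2))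
      (s1 * p2 + p1 * s2) (Set.Ici 0) 0 := by
    have q1 := (hq p1).hasDerivWithinAt (s := Set.Ici 0)
    have q2 := (hq p2).hasDerivWithinAt (s := Set.Ici 0)
    have h := ((h1.mul q2).add (q1.mul h2)).sub (q1.mul q2)
    have he : s1 * p2 + p1 * s2 = s1 * ((1 - 2 * R * 0) ^ 2 * p2) + a1 0 * (-(4 * R) * p2) +
        (-(4 * R) * p1 * a2 0 + (1 - 2 * R * 0) ^ 2 * p1 * s2) -
        (-(4 * R) * p1 * ((1 - 2 * R * 0) ^ 2 * p2) +
          (1 - 2 * R * 0) ^ 2 * p1 * (-(4 * R) * p2)) := by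
      rw [ha10, ha20]; ring
    rw [he]
    exact h
  have hf0 : volume.real (P1 ×ˢ P2 + (0:ℝ) • N) = p1 * p2 := by
    have : P1 ×ˢ P2 + (0:ℝ) • N = P1 ×ˢ P2 := by
      rw [Set.zero_smul_set hne]; simp
    rw [this, Measure.volume_eq_prod, measureReal_prod_prod]
  refine squeeze_deriv hl hu ?_ ?_ (1 / (2 * R)) (by positivity) ?_ ?_
  · rw [hf0, ha10, ha20]; ring
  · rw [hf0, ha10, ha20]
  · intro ε h0 he
    have hR1 : 2 * R * ε ≤ 1 := by
      have : ε * (2 * R) < 1 := by rwa [lt_div_iff₀ (by positivity)] at he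
      linarith
    set X1 := P1 + ε • (Prod.fst '' N) with hX1
    set X2 := P2 + ε • (Prod.snd '' N) with hX2
    set Q1 := (1 - 2 * R * ε) • P1 with hQ1
    set Q2 := (1 - 2 * R * ε) • P2 with hQ2
    have hsub : X1 ×ˢ Q2 ∪ Q1 ×ˢ X2 ⊆ P1 ×ˢ P2 + ε • N := by
      rintro ⟨x, y⟩ (⟨hx, hy⟩ | ⟨hx, hy⟩)
      · obtain ⟨p, hp, _, ⟨_, ⟨n, hn, rfl⟩, rfl⟩, hxe⟩ := hx
        obtain ⟨q, hq', hye⟩ := hy
        refine ⟨(p, (1 - 2 * R * ε) • q - ε • n.2), ⟨hp, inner_mem P2 hv2 hb2 R ε hR h0.le hR1 _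
          (hRn n hn).2 q hq'⟩, ε • n, ⟨n, hn, rfl⟩, ?_⟩
        apply Prod.ext
        · exact hxe
        · change (1 - 2 * R * ε) • q - ε • n.2 + ε • n.2 = y
          rw [sub_add_cancel]
          exact hye
      · obtain ⟨p, hp, _, ⟨_, ⟨n, hn, rfl⟩, rfl⟩, hye⟩ := hy
        obtain ⟨q, hq', hxe⟩ := hx
        refine ⟨((1 - 2 * R * ε) • q - ε • n.1, p), ⟨inner_mem P1 hv1 hb1 R ε hR h0.le hR1 _
          (hRn n hn).1 q hq', hp⟩, ε • n, ⟨n, hn, rfl⟩, ?_⟩
        apply Prod.ext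
        · change (1 - 2 * R * ε) • q - ε • n.1 + ε • n.1 = x
          rw [sub_add_cancel]
          exact hxe
        · exact hye
    have cX1 : IsCompact X1 := hc1.add (hM1.smul ε)
    have cX2 : IsCompact X2 := hc2.add (hM2.smul ε)
    have cQ1 : IsCompact Q1 := hc1.smul _
    have cQ2 : IsCompact Q2 := hc2.smul _
    have m1 : volume.real (X1 ×ˢ Q2 ∪ Q1 ×ˢ X2) ≤ volume.real (P1 ×ˢ P2 + ε • N) :=
      measureReal_mono hsub ((hc1.prod hc2).add (hN.smul ε)).measure_lt_top.ne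
    have m2 := measureReal_union_add_inter (μ := volume) (s := X1 ×ˢ Q2) (t := Q1 ×ˢ X2)
      (cQ1.prod cX2).isClosed.measurableSet
      (cX1.prod cQ2).measure_lt_top.ne (cQ1.prod cX2).measure_lt_top.ne
    have m3 : volume.real (X1 ×ˢ Q2 ∩ Q1 ×ˢ X2) ≤ volume.real (Q1 ×ˢ Q2) := by
      apply measureReal_mono
      · rintro ⟨x, y⟩ ⟨⟨_, h4⟩, ⟨h5, _⟩⟩
        exact ⟨h5, h4⟩
      · exact (cQ1.prod cQ2).measure_lt_top.ne
    have v1 : volume.real (X1 ×ˢ Q2) = a1 ε * ((1 - 2 * R * ε) ^ 2 * p2) := by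
      rw [Measure.volume_eq_prod, measureReal_prod_prod, hQ2, smul_real]
    have v2 : volume.real (Q1 ×ˢ X2) = ((1 - 2 * R * ε) ^ 2 * p1) * a2 ε := by
      rw [Measure.volume_eq_prod, measureReal_prod_prod, hQ1, smul_real]
    have v3 : volume.real (Q1 ×ˢ Q2) =
        ((1 - 2 * R * ε) ^ 2 * p1) * ((1 - 2 * R * ε) ^ 2 * p2) := by
      rw [Measure.volume_eq_prod, measureReal_prod_prod, hQ1, hQ2, smul_real, smul_real]
    rw [v1, v2] at m2
    rw [v3] at m3
    linarith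
  · intro ε h0 he
    have hsub : P1 ×ˢ P2 + ε • N ⊆
        (P1 + ε • (Prod.fst '' N)) ×ˢ (P2 + ε • (Prod.snd '' N)) := by
      rintro _ ⟨⟨x, y⟩, ⟨hx, hy⟩, _, ⟨n, hn, rfl⟩, rfl⟩
      exact ⟨⟨x, hx, _, ⟨_, ⟨n, hn, rfl⟩, rfl⟩, rfl⟩, ⟨y, hy, _, ⟨_, ⟨n, hn, rfl⟩, rfl⟩, rfl⟩⟩
    have m := measureReal_mono (μ := volume) hsub
      ((hc1.add (hM1.smul ε)).prod (hc2.add (hM2.smul ε))).measure_lt_top.ne
    rw [Measure.volume_eq_prod, measureReal_prod_prod] at m
    exact m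

end Pool.Agent.Bl20
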